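import Pool.Agent.H75.L.W662.CB.Stmts2

/-!
# Project CB, piece Q1: extension from the corner
-/

set_option autoImplicit false

open scoped InnerProductSpace

namespace Pool.Agent.W298.CB2.Q1

open Pool.Agent.W662.CB

variable {K : Type} [NormedAddCommGroup K] [InnerProductSpace ℂ K] [CompleteSpace K]

/-- the vectors `S p v`, `S ∈ A` -/
def gen (A : VonNeumannAlgebra K) (p : K →L[ℂ] K) : Set K :=
  {w | ∃ S : K →L[ℂ] K, S ∈ A ∧ ∃ v, w = S (p v)}

theorem maps_closure (A : VonNeumannAlgebra K) (p T : K →L[ℂ] K)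
    (hT : ∀ w ∈ gen A p, T w ∈ (Submodule.span ℂ (gen A p)).topologicalClosure) :
    ∀ w ∈ (Submodule.span ℂ (gen A p)).topologicalClosure,
      T w ∈ (Submodule.span ℂ (gen A p)).topologicalClosure := by
  have h1 : Submodule.span ℂ (gen A p) ≤
      ((Submodule.span ℂ (gen A p)).topologicalClosure).comap (T : K →ₗ[ℂ] K) :=
    Submodule.span_le.mpr hT
  have h2 : (Submodule.span ℂ (gen A p)).topologicalClosure ≤
      ((Submodule.span ℂ (gen A p)).topologicalClosure).comap (T : K →ₗ[ℂ] K) :=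
    Submodule.topologicalClosure_minimal _ h1
      (IsClosed.preimage T.continuous (Submodule.isClosed_topologicalClosure _))
  exact h2

theorem gen_closure (A : VonNeumannAlgebra K) (p : K →L[ℂ] K) {w : K} (hw : w ∈ gen A p) :
    w ∈ (Submodule.span ℂ (gen A p)).topologicalClosure :=
  Submodule.le_topologicalClosure _ (Submodule.subset_span hw)

omit [CompleteSpace K] in
theorem star_proj_range (M : Submodule ℂ K) [M.HasOrthogonalProjection] :
    M.starProjection.range = M := by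
  ext w
  constructor
  · rintro ⟨v, rfl⟩
    exact Submodule.starProjection_apply_mem _ v
  · intro hw
    exact ⟨w, Submodule.starProjection_eq_self_iff.mpr hw⟩

theorem proj_B (A B : VonNeumannAlgebra K) (hAB : ∀ x : K →L[ℂ] K, x ∈ A → x ∈ B)
    (p : K →L[ℂ] K) (hp : p ∈ A) :
    (Submodule.span ℂ (gen A p)).topologicalClosure.starProjection ∈ B := by
  have hz : IsStarProjection
      (Submodule.span ℂ (gen A p)).topologicalClosure.starProjection :=
    isStarProjection_starProjection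
  rw [VonNeumannAlgebra.IsStarProjection.mem_iff hz, star_proj_range]
  intro y hy
  rw [VonNeumannAlgebra.mem_commutant_iff] at hy
  rw [Module.End.mem_invtSubmodule]
  refine maps_closure A p y ?_
  rintro w ⟨S, hS, v, rfl⟩
  apply gen_closure
  refine ⟨S, hS, y v, ?_⟩
  have h1 := congrArg (fun T : K →L[ℂ] K => T (p v)) (hy S (hAB S hS))
  have h2 := congrArg (fun T : K →L[ℂ] K => T v) (hy p (hAB p hp))
  simp only [mul_apply_eq_comp] at h1 h2
  rw [← h1, ← h2]

theorem proj_A (A : VonNeumannAlgebra K) (p : K →L[ℂ] K) :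
    (Submodule.span ℂ (gen A p)).topologicalClosure.starProjection ∈ A.commutant := by
  have hz : IsStarProjection
      (Submodule.span ℂ (gen A p)).topologicalClosure.starProjection :=
    isStarProjection_starProjection
  rw [VonNeumannAlgebra.IsStarProjection.mem_iff hz, star_proj_range,
    VonNeumannAlgebra.commutant_commutant]
  intro y hy
  rw [Module.End.mem_invtSubmodule]
  refine maps_closure A p y ?_
  rintro w ⟨S, hS, v, rfl⟩
  exact gen_closure A p ⟨y * S, mul_mem hy hS, v, rfl⟩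

/-- the square root of `‖Z‖² - Z* Z` -/
theorem exists_W (Z : K →L[ℂ] K) : ∃ W : K →L[ℂ] K, star W = W ∧
    W * W = algebraMap ℝ (K →L[ℂ] K) (‖Z‖ ^ 2) - star Z * Z ∧
    ∀ Q : K →L[ℂ] K, Q * (star Z * Z) = star Z * Z * Q → Q * W = W * Q := by
  have h0 : (0 : K →L[ℂ] K) ≤ algebraMap ℝ (K →L[ℂ] K) (‖Z‖ ^ 2) - star Z * Z :=
    sub_nonneg.mpr CStarAlgebra.star_mul_le_algebraMap_norm_sq
  refine ⟨CFC.sqrt (algebraMap ℝ (K →L[ℂ] K) (‖Z‖ ^ 2) - star Z * Z), ?_, ?_, ?_⟩
  · exact (IsSelfAdjoint.of_nonneg (CFC.sqrt_nonneg _)).star_eq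
  · exact CFC.sqrt_mul_sqrt_self _ h0
  · intro Q hQ
    have h1 : Commute (algebraMap ℝ (K →L[ℂ] K) (‖Z‖ ^ 2) - star Z * Z) Q := by
      have h2 : Commute (star Z * Z) Q := (show Commute Q (star Z * Z) from hQ).symm
      have h3 : Commute (algebraMap ℝ (K →L[ℂ] K) (‖Z‖ ^ 2)) Q := Algebra.commutes _ _
      exact h3.sub_left h2
    exact (h1.cfcₙ_nnreal _).symm.eq

theorem hadj (T : K →L[ℂ] K) (x y : K) : ⟪T x, y⟫_ℂ = ⟪x, star T y⟫_ℂ := by
  rw [ContinuousLinearMap.star_eq_adjoint, ContinuousLinearMap.adjoint_inner_right]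

/-- the base identity -/
theorem base (A : VonNeumannAlgebra K) (p : K →L[ℂ] K) (hp : p ∈ A) (hpp : p * p = p)
    (hps : star p = p) (X : K →L[ℂ] K)
    (hX : ∀ S : K →L[ℂ] K, S ∈ A → p * S * p = S → S * X = X * S)
    (S T : K →L[ℂ] K) (hS : S ∈ A) (hT : T ∈ A) (v w : K) :
    ⟪S (X (p v)), T (X (p w))⟫_ℂ = ⟪(star X * X) (p v), (p * (star S * T) * p) w⟫_ℂ := by
  have hQ : star S * T ∈ A := mul_mem (star_mem hS) hT
  have hpQ : p * (p * (star S * T) * p) * p = p * (star S * T) * p := by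
    rw [mul_assoc p (star S * T) p, ← mul_assoc p p, hpp, mul_assoc p (star S * T * p) p,
      mul_assoc (star S * T) p p, hpp]
  have hQc := hX _ (mul_mem (mul_mem hp hQ) hp) hpQ
  have hpX : p * X = X * p := hX p hp (by rw [hpp, hpp])
  have hpu : ∀ x, p (X (p x)) = X (p x) := by
    intro x
    have h1 := congrArg (fun R : K →L[ℂ] K => R (p x)) hpX
    have h2 := congrArg (fun R : K →L[ℂ] K => R x) hpp
    simp only [mul_apply_eq_comp] at h1 h2
    rw [h1, h2]
  have hQw : p (star S (T (p (X (p w))))) = X ((p * (star S * T) * p) (p w)) := by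
    have h4 := congrArg (fun R : K →L[ℂ] K => R (p w)) hQc
    exact h4
  have hpw : (p * (star S * T) * p) (p w) = (p * (star S * T) * p) w := by
    have h5 : p * (star S * T) * p * p = p * (star S * T) * p := by
      rw [mul_assoc, hpp]
    exact congrArg (fun R : K →L[ℂ] K => R w) h5
  calc ⟪S (X (p v)), T (X (p w))⟫_ℂ = ⟪X (p v), star S (T (X (p w)))⟫_ℂ := hadj _ _ _
    _ = ⟪p (X (p v)), star S (T (p (X (p w))))⟫_ℂ := by rw [hpu, hpu]
    _ = ⟪X (p v), p (star S (T (p (X (p w)))))⟫_ℂ := by rw [hadj, hps]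
    _ = ⟪X (p v), X ((p * (star S * T) * p) w)⟫_ℂ := by rw [hQw, hpw]
    _ = ⟪(star X * X) (p v), (p * (star S * T) * p) w⟫_ℂ := by
        have h6 := hadj (star X) (X (p v)) ((p * (star S * T) * p) w)
        rw [star_star] at h6
        exact h6.symm

theorem ext_gen (A : VonNeumannAlgebra K) (p F G : K →L[ℂ] K)
    (h : ∀ w ∈ gen A p, F w = G w) :
    F * (Submodule.span ℂ (gen A p)).topologicalClosure.starProjection =
      G * (Submodule.span ℂ (gen A p)).topologicalClosure.starProjection := by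
  have h1 : (Submodule.span ℂ (gen A p)).topologicalClosure ≤
      LinearMap.ker ((F - G : K →L[ℂ] K) : K →ₗ[ℂ] K) := by
    refine Submodule.topologicalClosure_minimal _ ?_ ?_
    · refine Submodule.span_le.mpr ?_
      intro w hw
      show F w - G w = 0
      rw [h w hw, sub_self]
    · exact (F - G).isClosed_ker
  refine ContinuousLinearMap.ext fun v => ?_
  have h2 := h1 (Submodule.starProjection_apply_mem
    (Submodule.span ℂ (gen A p)).topologicalClosure v)
  exact sub_eq_zero.mp h2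

theorem finish (A B : VonNeumannAlgebra K) (hAB : ∀ x : K →L[ℂ] K, x ∈ A → x ∈ B)
    (p Z : K →L[ℂ] K) (hp : p ∈ A) (hZB : Z ∈ B)
    (hZp : Z * p = Z) (M : Submodule ℂ K) [M.HasOrthogonalProjection]
    (hPB : M.starProjection ∈ B) (hPA : M.starProjection ∈ A.commutant)
    (hext : ∀ F G : K →L[ℂ] K, (∀ w ∈ gen A p, F w = G w) →
      F * M.starProjection = G * M.starProjection)
    (hgc : ∀ w ∈ gen A p, w ∈ M) {E : Type} [AddCommGroup E] [Module ℂ E]
    (e f : E →ₗ[ℂ] K) (heM : ∀ x, e x ∈ M) (hMcl : (M : Set K) ⊆ closure (Set.range e))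
    (hnorm : ∀ x, ‖f x‖ ≤ ‖Z‖ * ‖e x‖)
    (hef : ∀ S : K →L[ℂ] K, S ∈ A → ∀ v, ∃ x, e x = S (p v) ∧ f x = S (Z (p v))) :
    ∃ S0 : K →L[ℂ] K, Rel A B S0 ∧ S0 * p = Z ∧ ‖S0‖ ≤ ‖Z‖ := by
  obtain ⟨e', he'⟩ : ∃ e' : E →ₗ[ℂ] M, ∀ x, ((e' x : M) : K) = e x :=
    ⟨e.codRestrict M heM, fun x => rfl⟩
  have hdr : DenseRange e' := by
    intro m
    rw [closure_subtype]
    have h1 : ((fun x : M => (x : K)) '' Set.range e') = Set.range e := by
      rw [← Set.range_comp]
      exact congrArg Set.range (funext he')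
    rw [h1]
    exact hMcl m.2
  have hnorm' : ∀ x, ‖f x‖ ≤ ‖Z‖ * ‖e' x‖ := by
    intro x
    have h1 : ‖e' x‖ = ‖e x‖ := by rw [← he' x]; rfl
    rw [h1]
    exact hnorm x
  obtain ⟨R, hR, hRn⟩ : ∃ R : M →L[ℂ] K, (∀ x, R (e' x) = f x) ∧ ∀ m, ‖R m‖ ≤ ‖Z‖ * ‖m‖ :=
    ⟨f.extendOfNorm e', fun x => LinearMap.extendOfNorm_eq hdr ⟨‖Z‖, hnorm'⟩ x,
      fun m => LinearMap.norm_extendOfNorm_apply_le hdr ‖Z‖ hnorm' m⟩
  obtain ⟨S0, hS0⟩ : ∃ S0 : K →L[ℂ] K, ∀ x, S0 x = R (M.orthogonalProjectionOnto x) :=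
    ⟨R ∘L M.orthogonalProjectionOnto, fun x => rfl⟩
  have hS0P : S0 * M.starProjection = S0 := by
    refine ContinuousLinearMap.ext fun v => ?_
    show S0 (M.starProjection v) = S0 v
    rw [hS0, hS0]
    congr 1
    apply Subtype.ext
    show M.starProjection (M.starProjection v) = M.starProjection v
    exact Submodule.starProjection_eq_self_iff.mpr (Submodule.starProjection_apply_mem _ v)
  have hS0g : ∀ S : K →L[ℂ] K, S ∈ A → ∀ v, S0 (S (p v)) = S (Z (p v)) := by
    intro S hS v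
    obtain ⟨x, hx1, hx2⟩ := hef S hS v
    have h1 : M.orthogonalProjectionOnto (S (p v)) = e' x := by
      apply Subtype.ext
      rw [he', hx1]
      show M.starProjection (S (p v)) = S (p v)
      exact Submodule.starProjection_eq_self_iff.mpr (hgc _ ⟨S, hS, v, rfl⟩)
    rw [hS0, h1, hR, hx2]
  have key : ∀ T : K →L[ℂ] K, T * M.starProjection = M.starProjection * T →
      (∀ w ∈ gen A p, T (S0 w) = S0 (T w)) → T * S0 = S0 * T := by
    intro T hT h
    have h1 : T * S0 * M.starProjection = S0 * T * M.starProjection :=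
      hext (T * S0) (S0 * T) h
    calc T * S0 = T * (S0 * M.starProjection) := by rw [hS0P]
      _ = S0 * T * M.starProjection := by rw [← mul_assoc, h1]
      _ = S0 * (M.starProjection * T) := by rw [mul_assoc, hT]
      _ = S0 * T := by rw [← mul_assoc, hS0P]
  refine ⟨S0, ⟨?_, ?_⟩, ?_, ?_⟩
  · rw [← VonNeumannAlgebra.commutant_commutant B, VonNeumannAlgebra.mem_commutant_iff]
    intro T hT
    rw [VonNeumannAlgebra.mem_commutant_iff] at hT
    have hc : ∀ b : K →L[ℂ] K, b ∈ B → ∀ x, T (b x) = b (T x) := fun b hb x =>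
      (congrArg (fun X : K →L[ℂ] K => X x) (hT b hb)).symm
    refine key T (hT _ hPB).symm ?_
    rintro w ⟨S, hS, v, rfl⟩
    rw [hS0g S hS, hc S (hAB S hS), hc Z hZB, hc p (hAB p hp), hc S (hAB S hS),
      hc p (hAB p hp), hS0g S hS]
  · intro T hT
    refine key T (VonNeumannAlgebra.mem_commutant_iff.mp hPA T hT) ?_
    rintro w ⟨S, hS, v, rfl⟩
    rw [hS0g S hS]
    exact (hS0g (T * S) (mul_mem hT hS) v).symm
  · refine ContinuousLinearMap.ext fun v => ?_
    have h1 := hS0g 1 (one_mem A) v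
    have h2 : S0 (p v) = Z (p v) := h1
    show S0 (p v) = Z v
    rw [h2]
    exact congrArg (fun X : K →L[ℂ] K => X v) hZp
  · refine S0.opNorm_le_bound (norm_nonneg _) fun x => ?_
    rw [hS0]
    refine (hRn _).trans (mul_le_mul_of_nonneg_left ?_ (norm_nonneg _))
    exact Submodule.norm_orthogonalProjectionOnto_apply_le M x

theorem q1 : S_Q1 := by
  intro K _ _ _ A B hAB p hp hpp hps Z hZB hZp hZA
  obtain ⟨W, hWs, hWW, hWc⟩ := exists_W Z
  have hZsA : ∀ S : K →L[ℂ] K, S ∈ A → p * S * p = S → S * star Z = star Z * S := by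
    intro S hS hSp
    have h1 : p * star S * p = star S := by
      have h := congrArg star hSp
      rwa [star_mul, star_mul, hps, ← mul_assoc] at h
    have h2 := congrArg star (hZA (star S) (star_mem hS) h1)
    rw [star_mul, star_mul, star_star] at h2
    exact h2.symm
  have hWA : ∀ S : K →L[ℂ] K, S ∈ A → p * S * p = S → S * W = W * S := by
    intro S hS hSp
    refine hWc S ?_
    rw [← mul_assoc, hZsA S hS hSp, mul_assoc, hZA S hS hSp, mul_assoc]
  have h1A : ∀ S : K →L[ℂ] K, S ∈ A → p * S * p = S →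
      S * (1 : K →L[ℂ] K) = (1 : K →L[ℂ] K) * S := by
    intro S _ _
    rw [mul_one, one_mul]
  -- the maps on the formal sums
  obtain ⟨e, he⟩ : ∃ e : (({S : K →L[ℂ] K // S ∈ A} × K) →₀ ℂ) →ₗ[ℂ] K,
      e = Finsupp.linearCombination ℂ (fun x => x.1.1 (p x.2)) := ⟨_, rfl⟩
  obtain ⟨f, hf⟩ : ∃ f : (({S : K →L[ℂ] K // S ∈ A} × K) →₀ ℂ) →ₗ[ℂ] K,
      f = Finsupp.linearCombination ℂ (fun x => x.1.1 (Z (p x.2))) := ⟨_, rfl⟩
  obtain ⟨g, hg⟩ : ∃ g : (({S : K →L[ℂ] K // S ∈ A} × K) →₀ ℂ) →ₗ[ℂ] K,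
      g = Finsupp.linearCombination ℂ (fun x => x.1.1 (W (p x.2))) := ⟨_, rfl⟩
  have hes : ∀ a c, e (Finsupp.single a c) = c • a.1.1 (p a.2) := by
    intro a c
    rw [he, Finsupp.linearCombination_single]
  have hfs : ∀ a c, f (Finsupp.single a c) = c • a.1.1 (Z (p a.2)) := by
    intro a c
    rw [hf, Finsupp.linearCombination_single]
  have hgs : ∀ a c, g (Finsupp.single a c) = c • a.1.1 (W (p a.2)) := by
    intro a c
    rw [hg, Finsupp.linearCombination_single]
  have hbase : ∀ (S T : K →L[ℂ] K), S ∈ A → T ∈ A → ∀ v w : K,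
      ⟪S (Z (p v)), T (Z (p w))⟫_ℂ + ⟪S (W (p v)), T (W (p w))⟫_ℂ =
        ((‖Z‖ ^ 2 : ℝ) : ℂ) * ⟪S (p v), T (p w)⟫_ℂ := by
    intro S T hS hT v w
    have h1 := base A p hp hpp hps Z hZA S T hS hT v w
    have h2 := base A p hp hpp hps W hWA S T hS hT v w
    have h3 := base A p hp hpp hps 1 h1A S T hS hT v w
    rw [star_one, one_mul] at h3
    have h3' : ⟪S (p v), T (p w)⟫_ℂ = ⟪p v, (p * (star S * T) * p) w⟫_ℂ := h3
    rw [h1, h2, h3', ← inner_add_left, hWs, hWW]
    have h4 : (star Z * Z) (p v) +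
        (algebraMap ℝ (K →L[ℂ] K) (‖Z‖ ^ 2) - star Z * Z) (p v) =
        ((‖Z‖ ^ 2 : ℝ) : ℂ) • p v := by
      have h5 : (algebraMap ℝ (K →L[ℂ] K) (‖Z‖ ^ 2) - star Z * Z) (p v) =
          (‖Z‖ ^ 2 : ℝ) • p v - (star Z * Z) (p v) := by
        rw [Algebra.algebraMap_eq_smul_one]
        rfl
      rw [h5, add_sub_cancel]
      exact (Complex.coe_smul (‖Z‖ ^ 2) (p v)).symm
    rw [h4, inner_smul_left, Complex.conj_ofReal]
  have hinner : ∀ x y, ⟪f x, f y⟫_ℂ + ⟪g x, g y⟫_ℂ = ((‖Z‖ ^ 2 : ℝ) : ℂ) * ⟪e x, e y⟫_ℂ := by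
    intro x
    induction x using Finsupp.induction_linear with
    | zero =>
      intro y
      rw [map_zero, map_zero, map_zero, inner_zero_left, inner_zero_left, inner_zero_left,
        mul_zero, add_zero]
    | add x₁ x₂ h₁ h₂ =>
      intro y
      rw [map_add, map_add, map_add, inner_add_left, inner_add_left, inner_add_left, mul_add,
        ← h₁, ← h₂]
      ring
    | single a c =>
      intro y
      induction y using Finsupp.induction_linear with
      | zero =>
        rw [map_zero, map_zero, map_zero, inner_zero_right, inner_zero_right, inner_zero_right,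
          mul_zero, add_zero]
      | add y₁ y₂ h₁ h₂ =>
        rw [map_add, map_add, map_add, inner_add_right, inner_add_right, inner_add_right,
          mul_add, ← h₁, ← h₂]
        ring
      | single b d =>
        have h5 := hbase a.1.1 b.1.1 a.1.2 b.1.2 a.2 b.2
        rw [hes, hes, hfs, hfs, hgs, hgs, inner_smul_left, inner_smul_left, inner_smul_left,
          inner_smul_right, inner_smul_right, inner_smul_right]
        linear_combination ((starRingEnd ℂ) c * d) * h5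
  have hnorm : ∀ x, ‖f x‖ ≤ ‖Z‖ * ‖e x‖ := by
    intro x
    have h1 := hinner x x
    rw [inner_self_eq_norm_sq_to_K, inner_self_eq_norm_sq_to_K, inner_self_eq_norm_sq_to_K] at h1
    have h2 : ‖f x‖ ^ 2 + ‖g x‖ ^ 2 = ‖Z‖ ^ 2 * ‖e x‖ ^ 2 := by
      apply Complex.ofReal_injective
      push_cast
      push_cast at h1
      exact h1
    have h3 : ‖f x‖ ^ 2 ≤ (‖Z‖ * ‖e x‖) ^ 2 := by
      rw [mul_pow, ← h2]
      exact le_add_of_nonneg_right (sq_nonneg _)
    exact (sq_le_sq₀ (norm_nonneg _) (mul_nonneg (norm_nonneg _) (norm_nonneg _))).mp h3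
  have hgen : Set.range (fun x : {S : K →L[ℂ] K // S ∈ A} × K => x.1.1 (p x.2)) = gen A p := by
    ext w
    constructor
    · rintro ⟨⟨⟨S, hS⟩, v⟩, rfl⟩
      exact ⟨S, hS, v, rfl⟩
    · rintro ⟨S, hS, v, rfl⟩
      exact ⟨⟨⟨S, hS⟩, v⟩, rfl⟩
  have hrange : Set.range e = (Submodule.span ℂ (gen A p) : Set K) := by
    rw [← hgen, ← Finsupp.range_linearCombination, he]
    rfl
  have heM : ∀ x, e x ∈ (Submodule.span ℂ (gen A p)).topologicalClosure := by
    intro x
    refine Submodule.le_topologicalClosure _ ?_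
    have h : e x ∈ Set.range e := ⟨x, rfl⟩
    rw [hrange] at h
    exact h
  have hMcl : ((Submodule.span ℂ (gen A p)).topologicalClosure : Set K) =
      closure (Set.range e) := by
    rw [hrange, Submodule.topologicalClosure_coe]
  have hZp' : Z * p = Z := by
    rw [← hZp, mul_assoc, hpp]
  refine finish A B hAB p Z hp hZB hZp' _ (proj_B A B hAB p hp) (proj_A A p) (ext_gen A p)
    (fun w hw => gen_closure A p hw) e f heM hMcl.le hnorm ?_
  intro S hS v
  refine ⟨Finsupp.single (⟨S, hS⟩, v) 1, ?_, ?_⟩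
  · rw [hes, one_smul]
  · rw [hfs, one_smul]

end Pool.Agent.W298.CB2.Q1
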